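import Pool.Agent.K3h36.FF.MLIMb

/-!
# MLIM: the local limit of the correlations of Mallows permutations
-/

set_option autoImplicit false

open MeasureTheory Filter Topology ProbabilityTheory Set

namespace Pool.Agent.K3h36.FF

open Pool.Agent.K3h5.FF

theorem BM_exists (u : Label) : ∃ S, ∀ S', S ≤ S' → BM S' u := by
  rcases u with k | j
  · refine ⟨k.natAbs + 1, fun S' h => ⟨fun k' hk => ?_, fun j' hj => ?_⟩⟩
    · cases hk
      omega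
    · cases hj
  · refine ⟨j + 1, fun S' h => ⟨fun k' hk => ?_, fun j' hj => ?_⟩⟩
    · cases hk
    · cases hj
      omega

theorem BM_all {l : ℕ} (u : Fin l → Label) : ∃ S, ∀ i, BM S (u i) := by
  choose f hf using fun i => BM_exists (u i)
  exact ⟨∑ i, f i, fun i => hf i _ (Finset.single_le_sum (fun _ _ => Nat.zero_le _)
    (Finset.mem_univ i))⟩

/-- the limit of the beginning of the box of positions -/
noncomputable def xi (u : Label) (x ε : ℝ) : ℝ :=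
  match u with
  | Sum.inl _ => x
  | Sum.inr j => j * ε

theorem xi_cont (u : Label) (x : ℝ) : Continuous (xi u x) := by
  rcases u with k | j
  · exact continuous_const
  · exact continuous_const.mul continuous_id

theorem cdiv (c : ℝ) : Tendsto (fun n : ℕ => c / (n : ℝ)) atTop (𝓝 0) :=
  tendsto_const_div_atTop_nhds_zero_nat c

theorem floor_lim {c : ℝ} (hc : 0 ≤ c) :
    Tendsto (fun n : ℕ => ((⌊c * (n : ℝ)⌋₊ : ℕ) : ℝ) / (n : ℝ)) atTop (𝓝 c) :=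
  (tendsto_nat_floor_mul_div_atTop hc).comp tendsto_natCast_atTop_atTop

theorem ndiv1 : Tendsto (fun n : ℕ => (n : ℝ) / (n : ℝ)) atTop (𝓝 1) := by
  apply tendsto_const_nhds.congr'
  filter_upwards [eventually_gt_atTop 0] with n hn
  have : (n : ℝ) ≠ 0 := by
    have : 0 < (n : ℝ) := by exact_mod_cast hn
    exact this.ne'
  rw [div_self this]

theorem far_ev {l : ℕ} (S : ℕ) (x : Fin l → ℝ) (hx1 : ∀ i, x i ∈ Ioo (0 : ℝ) 1) (ε : ℝ)
    (hε : 0 < ε) (h1 : ∀ i, ((S : ℝ) + 1) * ε < x i) (h2 : ∀ i, x i + ε < 1)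
    (h3 : ∀ i i', i < i' → x i + ε < x i') :
    ∀ᶠ n : ℕ in atTop, Far n S ⌊ε * (n : ℝ)⌋₊ (fun i => ⌊x i * (n : ℝ)⌋₊) := by
  have hh := floor_lim hε.le
  have ha := fun i => floor_lim (hx1 i).1.le
  have e1 : ∀ᶠ n : ℕ in atTop, ∀ i i', i < i' → (0 : ℝ) <
      ((⌊x i' * (n : ℝ)⌋₊ : ℕ) : ℝ) - ((⌊x i * (n : ℝ)⌋₊ : ℕ) : ℝ) -
        ((⌊ε * (n : ℝ)⌋₊ : ℕ) : ℝ) - (2 * S + 2) := by
    rw [eventually_all]
    intro i
    rw [eventually_all]
    intro i'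
    by_cases hi : i < i'
    · have := evpos (fun n => ((⌊x i' * (n : ℝ)⌋₊ : ℕ) : ℝ) - ((⌊x i * (n : ℝ)⌋₊ : ℕ) : ℝ) -
        ((⌊ε * (n : ℝ)⌋₊ : ℕ) : ℝ) - (2 * S + 2)) (x i' - x i - ε - 0) (by
          simp only [sub_div]
          have h4 := ((ha i').sub (ha i)).sub hh
          have h5 := h4.sub (cdiv (2 * (S : ℝ) + 2))
          exact h5) (by linarith [h3 i i' hi])
      filter_upwards [this] with n hn _
      exact hn
    · exact Eventually.of_forall fun n h => absurd h hi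
  have e2 : ∀ᶠ n : ℕ in atTop, ∀ i, (0 : ℝ) <
      ((⌊x i * (n : ℝ)⌋₊ : ℕ) : ℝ) - (S + 1) * ((⌊ε * (n : ℝ)⌋₊ : ℕ) : ℝ) - (2 * S + 2) := by
    rw [eventually_all]
    intro i
    exact evpos _ (x i - (S + 1) * ε - 0) (by
          simp only [sub_div, mul_div_assoc]
          exact ((ha i).sub (hh.const_mul ((S : ℝ) + 1))).sub (cdiv (2 * (S : ℝ) + 2)))
          (by linarith [h1 i])
  have e3 : ∀ᶠ n : ℕ in atTop, ∀ i, (0 : ℝ) <
      (n : ℝ) - ((⌊x i * (n : ℝ)⌋₊ : ℕ) : ℝ) - ((⌊ε * (n : ℝ)⌋₊ : ℕ) : ℝ) - (S + 2) := by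
    rw [eventually_all]
    intro i
    exact evpos _ (1 - x i - ε - 0) (by
          simp only [sub_div]
          exact ((ndiv1.sub (ha i)).sub hh).sub (cdiv ((S : ℝ) + 2)))
          (by linarith [h2 i])
  filter_upwards [e1, e2, e3] with n f1 f2 f3
  refine ⟨fun i i' hi => ?_, fun i => ?_, fun i => ?_⟩
  · have h4 := f1 i i' hi
    have : ((⌊x i * (n : ℝ)⌋₊ + ⌊ε * (n : ℝ)⌋₊ + 2 * S + 2 : ℕ) : ℝ) ≤
        ((⌊x i' * (n : ℝ)⌋₊ : ℕ) : ℝ) := by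
      push_cast
      linarith
    exact_mod_cast this
  · have h4 := f2 i
    have : ((2 * S + S * ⌊ε * (n : ℝ)⌋₊ + ⌊ε * (n : ℝ)⌋₊ + 2 : ℕ) : ℝ) ≤
        ((⌊x i * (n : ℝ)⌋₊ : ℕ) : ℝ) := by
      push_cast
      linarith
    exact_mod_cast this
  · have h4 := f3 i
    have : ((⌊x i * (n : ℝ)⌋₊ + ⌊ε * (n : ℝ)⌋₊ + S + 2 : ℕ) : ℝ) ≤ (n : ℝ) := by
      push_cast
      linarith
    exact_mod_cast this

theorem cz_lim (u : Label) (S : ℕ) (hu : BM S u) (x ε : ℝ) (hx : 0 < x) (hε : 0 < ε) :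
    Tendsto (fun n : ℕ => ((cz u S ⌊ε * (n : ℝ)⌋₊ ⌊x * (n : ℝ)⌋₊ : ℕ) : ℝ) / (n : ℝ)) atTop
      (𝓝 (xi u x ε)) := by
  have hh := floor_lim hε.le
  have ha := floor_lim hx.le
  rcases u with k | j
  · have hk := hu.1 k rfl
    have h1 := (ha.add (cdiv (1 - (k : ℝ))))
    rw [add_zero] at h1
    refine h1.congr' ?_
    have e2 : ∀ᶠ n : ℕ in atTop, (0 : ℝ) < ((⌊x * (n : ℝ)⌋₊ : ℕ) : ℝ) - S :=
      evpos _ (x - 0) (by
          simp only [sub_div]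
          exact ha.sub (cdiv (S : ℝ))) (by linarith)
    filter_upwards [e2] with n hn
    rw [← add_div]
    congr 1
    have h2 : S < ⌊x * (n : ℝ)⌋₊ := by
      have : (S : ℝ) < ((⌊x * (n : ℝ)⌋₊ : ℕ) : ℝ) := by linarith
      exact_mod_cast this
    show _ = (((((⌊x * (n : ℝ)⌋₊ : ℕ) : ℤ) - k).toNat + 1 : ℕ) : ℝ)
    have h3 : ((((((⌊x * (n : ℝ)⌋₊ : ℕ) : ℤ) - k).toNat + 1 : ℕ) : ℤ) : ℝ) =
        ((((⌊x * (n : ℝ)⌋₊ : ℕ) : ℤ) + (1 - k) : ℤ) : ℝ) := by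
      congr 1
      omega
    rw [Int.cast_natCast] at h3
    rw [h3]
    push_cast
    ring
  · have h1 := ((cdiv (S : ℝ)).add (hh.const_mul (j : ℝ)))
    rw [zero_add] at h1
    refine h1.congr' (Eventually.of_forall fun n => ?_)
    show _ = (((S + j * ⌊ε * (n : ℝ)⌋₊ : ℕ) : ℝ)) / (n : ℝ)
    push_cast
    ring

theorem t_MLIM : S_SAND → S_INVS → S_QN → S_GU → S_BOXL → S_MLIM := by
  intro hSAND hINVS hQN hGU hBOXL q β hq hqn l u hf x hx hx1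
  obtain ⟨S, hu⟩ := BM_all u
  have hlog := (hQN q β hq hqn).1
  have hxi : ∀ i, xi (u i) (x i) 0 ∈ Icc (0 : ℝ) 1 := fun i => by
    rcases u i with k | j
    · exact ⟨(hx1 i).1.le, (hx1 i).2.le⟩
    · simp [xi]
  have hP : ∀ i, Continuous (Ph β (xi (u i) (x i)) (x i)) := fun i =>
    Ph_cont hGU β _ (xi_cont _ _) _
  have hPc : Continuous fun ε => ∏ i, Ph β (xi (u i) (x i)) (x i) ε :=
    continuous_finsetProd _ fun i _ => hP i
  have hP0 : ∏ i, Ph β (xi (u i) (x i)) (x i) 0 = ∏ i, rho (lamM β) (dens β 0) (u i) (x i) := by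
    refine Finset.prod_congr rfl fun i _ => ?_
    rw [Ph_zero β _ _ (hxi i) ⟨(hx1 i).1.le, (hx1 i).2.le⟩]
    rcases u i with k | j
    · rfl
    · simp [xi, rho]
  have hA : Continuous fun ε : ℝ => Real.exp (4 * l * ((((S : ℝ) + 1) * ε) * |(-β)|)) *
      ∏ i, Ph β (xi (u i) (x i)) (x i) ε := by
    refine Continuous.mul (Real.continuous_exp.comp ?_) hPc
    fun_prop
  have hB : Continuous fun ε : ℝ => Real.exp (-(4 * l * ((((S : ℝ) + 1) * ε) * |(-β)|))) *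
      ∏ i, Ph β (xi (u i) (x i)) (x i) ε := by
    refine Continuous.mul (Real.continuous_exp.comp ?_) hPc
    fun_prop
  have hA0 := hA.tendsto 0
  have hB0 := hB.tendsto 0
  simp only [mul_zero, zero_mul, neg_zero, Real.exp_zero, one_mul] at hA0 hB0
  rw [hP0] at hA0 hB0
  refine sq2 _ _ _ _ (hA0.mono_left nhdsWithin_le_nhds) (hB0.mono_left nhdsWithin_le_nhds) ?_
  have hsm : ∀ c : ℝ, Tendsto (fun ε : ℝ => c * ε) (𝓝[>] 0) (𝓝 0) := fun c => by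
    have : Continuous fun ε : ℝ => c * ε := by fun_prop
    have h := this.tendsto 0
    rw [mul_zero] at h
    exact h.mono_left nhdsWithin_le_nhds
  have ev1 : ∀ᶠ ε in 𝓝[>] (0 : ℝ), ∀ i, ((S : ℝ) + 1) * ε < x i := by
    rw [eventually_all]
    exact fun i => (hsm _).eventually (gt_mem_nhds (hx1 i).1)
  have ev2 : ∀ᶠ ε in 𝓝[>] (0 : ℝ), ∀ i, 1 * ε < 1 - x i := by
    rw [eventually_all]
    exact fun i => (hsm _).eventually (gt_mem_nhds (by linarith [(hx1 i).2]))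
  have ev3 : ∀ᶠ ε in 𝓝[>] (0 : ℝ), ∀ i i', i < i' → 1 * ε < x i' - x i := by
    rw [eventually_all]
    intro i
    rw [eventually_all]
    intro i'
    by_cases hi : i < i'
    · filter_upwards [(hsm 1).eventually (gt_mem_nhds (sub_pos.2 (hx hi)))] with ε hε _
      exact hε
    · exact Eventually.of_forall fun n h => absurd h hi
  filter_upwards [ev1, ev2, ev3, self_mem_nhdsWithin] with ε h1 h2 h3 hε
  replace hε : 0 < ε := hε
  have hfar := far_ev S x hx1 ε hε h1 (fun i => by linarith [h2 i])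
    (fun i i' hi => by linarith [h3 i i' hi])
  have hh := floor_lim hε.le
  have ha := fun i => floor_lim (hx1 i).1.le
  have hcz := fun i => cz_lim (u i) S (hu i) (x i) ε (hx1 i).1 hε
  have hhpos : ∀ᶠ n : ℕ in atTop, (0 : ℝ) < ((⌊ε * (n : ℝ)⌋₊ : ℕ) : ℝ) := evpos _ ε hh hε
  have hbox := hBOXL q β hq hqn l
    (fun n i => cz (u i) S ⌊ε * (n : ℝ)⌋₊ ⌊x i * (n : ℝ)⌋₊)
    (fun n i => cz (u i) S ⌊ε * (n : ℝ)⌋₊ ⌊x i * (n : ℝ)⌋₊ + ⌊ε * (n : ℝ)⌋₊)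
    (fun n i => ⌊x i * (n : ℝ)⌋₊ + 1)
    (fun n i => ⌊x i * (n : ℝ)⌋₊ + 1 + ⌊ε * (n : ℝ)⌋₊)
    (fun i => xi (u i) (x i) ε) (fun i => xi (u i) (x i) ε + ε) x (fun i => x i + ε)
    (by
      filter_upwards [hfar] with n hn i
      have h4 := cz_le hn hu i
      have h5 := hn.e3 i
      omega)
    hcz
    (fun i => by
      have h4 := (hcz i).add hh
      refine h4.congr fun n => ?_
      push_cast
      ring)
    (fun i => by
      have h4 := (ha i).add (cdiv 1)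
      rw [add_zero] at h4
      refine h4.congr fun n => ?_
      push_cast
      ring)
    (fun i => by
      have h4 := ((ha i).add (cdiv 1)).add hh
      rw [add_zero] at h4
      refine h4.congr fun n => ?_
      push_cast
      ring)
  have hxr : ∀ i, 0 ≤ xi (u i) (x i) ε ∧ xi (u i) (x i) ε + ε ≤ 1 := fun i => by
    have h5 := hu i
    have h6 := h1 i
    have h7 := h2 i
    have h8 := (hx1 i).1
    generalize u i = v at h5
    rcases v with k | j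
    · exact ⟨h8.le, by show x i + ε ≤ 1; linarith⟩
    · have h9 : (j : ℝ) < S := by exact_mod_cast h5.2 j rfl
      have h10 : (0 : ℝ) ≤ j := Nat.cast_nonneg j
      refine ⟨mul_nonneg h10 hε.le, ?_⟩
      show (j : ℝ) * ε + ε ≤ 1
      nlinarith [(hx1 i).2]
  have hprod : (∏ i, ∫ s in (xi (u i) (x i) ε)..(xi (u i) (x i) ε + ε),
      ∫ r in (x i)..(x i + ε), dens β s r) = ε ^ (2 * l) * ∏ i, Ph β (xi (u i) (x i)) (x i) ε := by
    rw [Finset.prod_congr rfl fun i _ => box_eq β (xi (u i) (x i)) (x i) ε hε.le (hxr i).1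
      (hxr i).2 (hx1 i).1.le (by linarith [h2 i]), Finset.prod_mul_distrib, Finset.prod_const,
      Finset.card_univ, Fintype.card_fin, pow_mul]
  rw [hprod] at hbox
  -- the factor `K`
  have hD : Tendsto (fun n : ℕ => ((S + (S + 1) * ⌊ε * (n : ℝ)⌋₊ : ℕ) : ℝ) / (n : ℝ)) atTop
      (𝓝 (((S : ℝ) + 1) * ε)) := by
    have h4 := (cdiv (S : ℝ)).add (hh.const_mul ((S : ℝ) + 1))
    rw [zero_add] at h4
    refine h4.congr fun n => ?_
    push_cast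
    ring
  have hex : Tendsto (fun n : ℕ => 4 * (l : ℝ) *
      (((S + (S + 1) * ⌊ε * (n : ℝ)⌋₊ : ℕ) : ℝ) / (n : ℝ) * |(n : ℝ) * Real.log (q n)|)) atTop
      (𝓝 (4 * l * ((((S : ℝ) + 1) * ε) * |(-β)|))) :=
    (hD.mul hlog.abs).const_mul _
  have hnh : Tendsto (fun n : ℕ => ((((⌊ε * (n : ℝ)⌋₊ : ℕ) : ℝ) / (n : ℝ)) ^ (2 * l))⁻¹) atTop
      (𝓝 ((ε ^ (2 * l))⁻¹)) := (hh.pow _).inv₀ (pow_ne_zero _ hε.ne')
  have hcore := hnh.mul hbox
  rw [← mul_assoc, inv_mul_cancel₀ (pow_ne_zero _ hε.ne'), one_mul] at hcore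
  refine ⟨_, _, ((Real.continuous_exp.tendsto _).comp hex).mul hcore,
    ((Real.continuous_exp.tendsto _).comp hex.neg).mul hcore, ?_⟩
  filter_upwards [hfar, hhpos, eventually_gt_atTop 0] with n hn hhn hn0
  have hn' : (0 : ℝ) < n := by exact_mod_cast hn0
  have hc := comb hSAND hINVS hn hu hf (hq n)
  rw [K_eq (hq n) n _ l hn0] at hc
  have hev : {π : Equiv.Perm (Fin n) | ∀ i, LabP π (u i) ⌊(n : ℝ) * x i⌋} =
      {π | ∀ i, LabP π (u i) ((⌊x i * (n : ℝ)⌋₊ : ℕ) : ℤ)} := by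
    ext π
    simp only [Set.mem_ofPred_eq]
    refine forall_congr' fun i => ?_
    rw [Int.natCast_floor_eq_floor (mul_nonneg (hx1 i).1.le hn'.le), mul_comm]
  rw [hev]
  have hsum : ∑ π, mallows (q n) n π * ∏ i, (NN (seg n (cz (u i) S ⌊ε * (n : ℝ)⌋₊
        ⌊x i * (n : ℝ)⌋₊) (cz (u i) S ⌊ε * (n : ℝ)⌋₊ ⌊x i * (n : ℝ)⌋₊ + ⌊ε * (n : ℝ)⌋₊))
      (seg n (⌊x i * (n : ℝ)⌋₊ + 1) (⌊x i * (n : ℝ)⌋₊ + 1 + ⌊ε * (n : ℝ)⌋₊)) π : ℝ) =
      (n : ℝ) ^ l * ∑ π, mallows (q n) n π * ∏ i, ((NN (seg n (cz (u i) S ⌊ε * (n : ℝ)⌋₊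
        ⌊x i * (n : ℝ)⌋₊) (cz (u i) S ⌊ε * (n : ℝ)⌋₊ ⌊x i * (n : ℝ)⌋₊ + ⌊ε * (n : ℝ)⌋₊))
      (seg n (⌊x i * (n : ℝ)⌋₊ + 1) (⌊x i * (n : ℝ)⌋₊ + 1 + ⌊ε * (n : ℝ)⌋₊)) π : ℝ) / n) := by
    rw [Finset.mul_sum]
    refine Finset.sum_congr rfl fun π _ => ?_
    rw [Finset.prod_div_distrib, Finset.prod_const, Finset.card_univ, Fintype.card_fin]
    field_simp
  rw [hsum] at hc
  simp only [Function.comp]
  generalize hF : (∑ π, mallows (q n) n π * ∏ i, ((NN (seg n (cz (u i) S ⌊ε * (n : ℝ)⌋₊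
        ⌊x i * (n : ℝ)⌋₊) (cz (u i) S ⌊ε * (n : ℝ)⌋₊ ⌊x i * (n : ℝ)⌋₊ + ⌊ε * (n : ℝ)⌋₊))
      (seg n (⌊x i * (n : ℝ)⌋₊ + 1) (⌊x i * (n : ℝ)⌋₊ + 1 + ⌊ε * (n : ℝ)⌋₊)) π : ℝ) / n)) = F at *
  generalize hX : pr (mallows (q n) n) {π | ∀ i, LabP π (u i) ((⌊x i * (n : ℝ)⌋₊ : ℕ) : ℤ)} = X
    at *
  generalize ((⌊ε * (n : ℝ)⌋₊ : ℕ) : ℝ) = h at *
  generalize hE : 4 * (l : ℝ) *
      (((S + (S + 1) * ⌊ε * (n : ℝ)⌋₊ : ℕ) : ℝ) / (n : ℝ) * |(n : ℝ) * Real.log (q n)|) = E at *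
  obtain ⟨c1, c2⟩ := hc
  have hhl : 0 < (h * h) ^ l := by positivity
  have hEp := Real.exp_pos E
  have hr : ((h / (n : ℝ)) ^ (2 * l))⁻¹ * F = (n : ℝ) ^ l * ((n : ℝ) ^ l * F) / (h * h) ^ l := by
    rw [div_pow, pow_mul h, pow_mul (n : ℝ), ← pow_two h, pow_two (n : ℝ), mul_pow]
    field_simp
  rw [hr]
  have hnl : 0 < (n : ℝ) ^ l := by positivity
  constructor
  · calc Real.exp (-E) * ((n : ℝ) ^ l * ((n : ℝ) ^ l * F) / (h * h) ^ l)
        ≤ Real.exp (-E) * ((n : ℝ) ^ l * (Real.exp E * (X * (h * h) ^ l)) / (h * h) ^ l) := by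
          gcongr
      _ = (n : ℝ) ^ l * X := by
          rw [Real.exp_neg]
          field_simp
  · calc (n : ℝ) ^ l * X = (n : ℝ) ^ l * (X * (h * h) ^ l) / (h * h) ^ l := by
          field_simp
      _ ≤ (n : ℝ) ^ l * (Real.exp E * ((n : ℝ) ^ l * F)) / (h * h) ^ l := by
          gcongr
      _ = Real.exp E * ((n : ℝ) ^ l * ((n : ℝ) ^ l * F) / (h * h) ^ l) := by
          ring

end Pool.Agent.K3h36.FF
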