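import Pool.Agent.K3h5.FF.Stm

/-!
# MLIM, part 1: the combinatorial set-up
-/

set_option autoImplicit false

open MeasureTheory Filter Topology ProbabilityTheory Set

namespace Pool.Agent.K3h36.FF

open Pool.Agent.K3h5.FF

/-- the position of the letter `a` with the mark `u` -/
def pz (u : Label) (a : ℕ) : ℕ :=
  match u with
  | Sum.inl k => ((a : ℤ) - k).toNat
  | Sum.inr j => j

/-- the beginning of the box of positions -/
def cz (u : Label) (S h a : ℕ) : ℕ :=
  match u with
  | Sum.inl k => ((a : ℤ) - k).toNat + 1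
  | Sum.inr j => S + j * h

/-- bounded mark -/
def BM (S : ℕ) (u : Label) : Prop :=
  (∀ k, u = Sum.inl k → -(S : ℤ) < k ∧ k < S) ∧ ∀ j, u = Sum.inr j → j < S

theorem lab {n : ℕ} (π : Equiv.Perm (Fin n)) (u : Label) (S a : ℕ) (ha : a < n) (hp : pz u a < n)
    (hu : BM S u) (hS : S ≤ a) : LabP π u (a : ℤ) ↔ π ⟨pz u a, hp⟩ = ⟨a, ha⟩ := by
  rcases u with k | j
  · have hk := hu.1 k rfl
    constructor
    · rintro ⟨p, h1, h2⟩
      have h3 : p = ⟨pz (Sum.inl k) a, hp⟩ := by
        apply Fin.ext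
        show (p : ℕ) = ((a : ℤ) - k).toNat
        omega
      rw [← h3]
      apply Fin.ext
      show ((π p : Fin n) : ℕ) = a
      omega
    · intro h
      refine ⟨⟨pz (Sum.inl k) a, hp⟩, ?_, ?_⟩
      · rw [h]
      · show (a : ℤ) - ((((a : ℤ) - k).toNat : ℕ) : ℤ) = k
        omega
  · constructor
    · rintro ⟨p, h1, h2⟩
      have h3 : p = ⟨pz (Sum.inr j) a, hp⟩ := by
        apply Fin.ext
        show (p : ℕ) = j
        omega
      rw [← h3]
      apply Fin.ext
      show ((π p : Fin n) : ℕ) = a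
      omega
    · intro h
      refine ⟨⟨pz (Sum.inr j) a, hp⟩, rfl, ?_⟩
      rw [h]

/-- the numerical conditions -/
structure Far (n S h : ℕ) {l : ℕ} (a : Fin l → ℕ) : Prop where
  e1 : ∀ i i', i < i' → a i + h + 2 * S + 2 ≤ a i'
  e2 : ∀ i, 2 * S + S * h + h + 2 ≤ a i
  e3 : ∀ i, a i + h + S + 2 ≤ n

theorem jh {S j h : ℕ} (hj : j < S) : j * h + h ≤ S * h := by
  have : (j + 1) * h ≤ S * h := Nat.mul_le_mul_right h hj
  linarith [Nat.succ_mul j h]

section
variable {n S h l : ℕ} {a : Fin l → ℕ} {u : Fin l → Label}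

theorem pz_lt (hF : Far n S h a) (hu : ∀ i, BM S (u i)) (i : Fin l) : pz (u i) (a i) < n := by
  have h2 := hF.e2 i
  have h3 := hF.e3 i
  rcases hui : u i with k | j
  · have hk := (hu i).1 k hui
    simp only [pz]
    omega
  · have hj := (hu i).2 j hui
    simp only [pz]
    omega

theorem cz_le (hF : Far n S h a) (hu : ∀ i, BM S (u i)) (i : Fin l) :
    cz (u i) S h (a i) + h ≤ n := by
  have h2 := hF.e2 i
  have h3 := hF.e3 i
  rcases hui : u i with k | j
  · have hk := (hu i).1 k hui
    simp only [cz]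
    omega
  · have hj := (hu i).2 j hui
    have := jh (h := h) hj
    simp only [cz]
    omega

theorem cz_near (hF : Far n S h a) (hu : ∀ i, BM S (u i)) (i : Fin l) :
    pz (u i) (a i) ≤ cz (u i) S h (a i) ∧
      cz (u i) S h (a i) + h ≤ pz (u i) (a i) + (S + (S + 1) * h) + 1 := by
  have h2 := hF.e2 i
  have h3 := hF.e3 i
  have h5 : (S + 1) * h = S * h + h := Nat.succ_mul S h
  rcases hui : u i with k | j
  · have hk := (hu i).1 k hui
    simp only [cz, pz]
    omega
  · have hj := (hu i).2 j hui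
    have := jh (h := h) hj
    simp only [cz, pz]
    omega

theorem pz_ne (hF : Far n S h a) (hu : ∀ i, BM S (u i)) (hf : FrontInj u) (i i' : Fin l)
    (hi : i ≠ i') : pz (u i) (a i) ≠ pz (u i') (a i') := by
  have h2 := hF.e2 i
  have h2' := hF.e2 i'
  have h1 : a i + h + 2 * S + 2 ≤ a i' ∨ a i' + h + 2 * S + 2 ≤ a i := by
    rcases lt_or_gt_of_ne hi with h | h
    · exact Or.inl (hF.e1 i i' h)
    · exact Or.inr (hF.e1 i' i h)
  rcases hui : u i with k | j <;> rcases hui' : u i' with k' | j'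
  · have hk := (hu i).1 k hui
    have hk' := (hu i').1 k' hui'
    simp only [pz]
    omega
  · have hk := (hu i).1 k hui
    have hk' := (hu i').2 j' hui'
    simp only [pz]
    omega
  · have hk := (hu i).2 j hui
    have hk' := (hu i').1 k' hui'
    simp only [pz]
    omega
  · simp only [pz]
    rintro rfl
    exact hi (hf i i' j hui hui')

theorem cz_dis (hF : Far n S h a) (hu : ∀ i, BM S (u i)) (hf : FrontInj u) (i i' : Fin l)
    (hi : i ≠ i') : cz (u i) S h (a i) + h ≤ cz (u i') S h (a i') ∨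
      cz (u i') S h (a i') + h ≤ cz (u i) S h (a i) := by
  have h2 := hF.e2 i
  have h2' := hF.e2 i'
  have h1 : a i + h + 2 * S + 2 ≤ a i' ∨ a i' + h + 2 * S + 2 ≤ a i := by
    rcases lt_or_gt_of_ne hi with h | h
    · exact Or.inl (hF.e1 i i' h)
    · exact Or.inr (hF.e1 i' i h)
  rcases hui : u i with k | j <;> rcases hui' : u i' with k' | j'
  · have hk := (hu i).1 k hui
    have hk' := (hu i').1 k' hui'
    simp only [cz]
    omega
  · have hk := (hu i).1 k hui
    have hk' := (hu i').2 j' hui'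
    have := jh (h := h) hk'
    simp only [cz]
    omega
  · have hk := (hu i).2 j hui
    have hk' := (hu i').1 k' hui'
    have := jh (h := h) hk
    simp only [cz]
    omega
  · simp only [cz]
    have hjj : j ≠ j' := by
      rintro rfl
      exact hi (hf i i' j hui hui')
    rcases lt_or_gt_of_ne hjj with h' | h'
    · have := jh (h := h) h'
      omega
    · have := jh (h := h) h'
      omega

theorem pz_cz (hF : Far n S h a) (hu : ∀ i, BM S (u i)) (i i' : Fin l) :
    pz (u i) (a i) < cz (u i') S h (a i') ∨ cz (u i') S h (a i') + h ≤ pz (u i) (a i) := by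
  have h2 := hF.e2 i
  have h2' := hF.e2 i'
  have h1 : i = i' ∨ a i + h + 2 * S + 2 ≤ a i' ∨ a i' + h + 2 * S + 2 ≤ a i := by
    rcases lt_trichotomy i i' with h | h | h
    · exact Or.inr (Or.inl (hF.e1 i i' h))
    · exact Or.inl h
    · exact Or.inr (Or.inr (hF.e1 i' i h))
  rcases hui : u i with k | j <;> rcases hui' : u i' with k' | j'
  · have hk := (hu i).1 k hui
    have hk' := (hu i').1 k' hui'
    rcases h1 with rfl | h1
    · rw [hui] at hui'
      cases hui'
      simp only [pz, cz]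
      omega
    simp only [pz, cz]
    omega
  · have hk := (hu i).1 k hui
    have hk' := (hu i').2 j' hui'
    have := jh (h := h) hk'
    simp only [pz, cz]
    omega
  · have hk := (hu i).2 j hui
    have hk' := (hu i').1 k' hui'
    simp only [pz, cz]
    omega
  · have hk := (hu i).2 j hui
    have hk' := (hu i').2 j' hui'
    simp only [pz, cz]
    omega

end

theorem mem_seg {n a b : ℕ} {x : Fin n} : x ∈ seg n a b ↔ a ≤ x.val ∧ x.val < b := by
  simp [seg]

theorem seg_disj {n a b c d : ℕ} (h : b ≤ c ∨ d ≤ a) : Disjoint (seg n a b) (seg n c d) := by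
  rw [Finset.disjoint_left]
  intro x hx hy
  rw [mem_seg] at hx hy
  omega

theorem card_seg {n a h : ℕ} (hn : a + h ≤ n) : (seg n a (a + h)).card = h := by
  have : (seg n a (a + h)).map Fin.valEmbedding = Finset.Ico a (a + h) := by
    ext x
    simp only [Finset.mem_map, mem_seg, Fin.valEmbedding_apply, Finset.mem_Ico]
    constructor
    · rintro ⟨y, hy, rfl⟩
      exact hy
    · intro hx
      exact ⟨⟨x, by omega⟩, hx, rfl⟩
  rw [← Finset.card_map Fin.valEmbedding, this, Nat.card_Ico]
  omega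

/-- change of the Mallows weight -/
theorem mal_le {q : ℝ} (hq : 0 < q) (n D : ℕ) (π π' : Equiv.Perm (Fin n))
    (h1 : (inv π' : ℤ) ≤ inv π + 2 * D) (h2 : (inv π : ℤ) ≤ inv π' + 2 * D) :
    mallows q n π' ≤ (max q q⁻¹) ^ (2 * D) * mallows q n π := by
  have hZ : 0 < ∑ σ : Equiv.Perm (Fin n), q ^ inv σ :=
    Finset.sum_pos (fun σ _ => pow_pos hq _) Finset.univ_nonempty
  unfold mallows
  rw [mul_div_assoc', div_le_div_iff_of_pos_right hZ]
  have hQ1 : 1 ≤ max q q⁻¹ := by
    rcases le_or_gt 1 q with h | h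
    · exact le_max_of_le_left h
    · exact le_max_of_le_right ((one_le_inv₀ hq).2 h.le)
  rcases le_total (inv π) (inv π') with h | h
  · obtain ⟨d, hd⟩ := Nat.exists_eq_add_of_le h
    rw [hd, pow_add, mul_comm (q ^ inv π)]
    apply mul_le_mul_of_nonneg_right _ (pow_pos hq _).le
    calc q ^ d ≤ (max q q⁻¹) ^ d := pow_le_pow_left₀ hq.le (le_max_left _ _) _
      _ ≤ _ := pow_le_pow_right₀ hQ1 (by omega)
  · obtain ⟨d, hd⟩ := Nat.exists_eq_add_of_le h
    have h3 : q⁻¹ ^ d * q ^ inv π = q ^ inv π' := by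
      rw [hd, pow_add, inv_pow]
      field_simp
    rw [← h3]
    apply mul_le_mul_of_nonneg_right _ (by positivity)
    calc q⁻¹ ^ d ≤ (max q q⁻¹) ^ d := pow_le_pow_left₀ (inv_pos.2 hq).le (le_max_right _ _) _
      _ ≤ _ := pow_le_pow_right₀ hQ1 (by omega)

/-- the comparison -/
theorem comb (hSAND : S_SAND) (hINVS : S_INVS) {n S h l : ℕ} {a : Fin l → ℕ}
    {u : Fin l → Label} (hF : Far n S h a) (hu : ∀ i, BM S (u i)) (hf : FrontInj u)
    {q : ℝ} (hq : 0 < q) :
    pr (mallows q n) {π | ∀ i, LabP π (u i) (a i : ℤ)} * ((h : ℝ) * h) ^ l ≤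
      ((max q q⁻¹) ^ (2 * (S + (S + 1) * h))) ^ (2 * l) *
        ∑ π, mallows q n π * ∏ i, (NN (seg n (cz (u i) S h (a i)) (cz (u i) S h (a i) + h))
          (seg n (a i + 1) (a i + 1 + h)) π : ℝ) ∧
    ∑ π, mallows q n π * ∏ i, (NN (seg n (cz (u i) S h (a i)) (cz (u i) S h (a i) + h))
          (seg n (a i + 1) (a i + 1 + h)) π : ℝ) ≤
      ((max q q⁻¹) ^ (2 * (S + (S + 1) * h))) ^ (2 * l) *
        (pr (mallows q n) {π | ∀ i, LabP π (u i) (a i : ℤ)} * ((h : ℝ) * h) ^ l) := by
  have ha : ∀ i, a i < n := fun i => by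
    have := hF.e3 i
    omega
  have hp : ∀ i, pz (u i) (a i) < n := pz_lt hF hu
  have hev : {π : Equiv.Perm (Fin n) | ∀ i, LabP π (u i) (a i : ℤ)} =
      {π | ∀ i, π ⟨pz (u i) (a i), hp i⟩ = ⟨a i, ha i⟩} := by
    ext π
    simp only [Set.mem_ofPred_eq]
    refine forall_congr' fun i => lab π (u i) S (a i) (ha i) (hp i) (hu i) ?_
    have := hF.e2 i
    omega
  have hQ1 : 1 ≤ max q q⁻¹ := by
    rcases le_or_gt 1 q with h | h
    · exact le_max_of_le_left h
    · exact le_max_of_le_right ((one_le_inv₀ hq).2 h.le)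
  have hZ : 0 < ∑ σ : Equiv.Perm (Fin n), q ^ Pool.Agent.K3h5.FF.inv σ :=
    Finset.sum_pos (fun σ _ => pow_pos hq _) Finset.univ_nonempty
  have key := hSAND n (S + (S + 1) * h) (mallows q n) ((max q q⁻¹) ^ (2 * (S + (S + 1) * h)))
    (one_le_pow₀ hQ1) (fun π => div_nonneg (pow_pos hq _).le hZ.le) (by
      intro π x y hxy
      have h1 := hINVS n π x y
      have h2 := hINVS n (Equiv.swap x y * π) x y
      have h3 := hINVS n (π * Equiv.swap x y) x y
      rw [← mul_assoc, Equiv.swap_mul_self, one_mul] at h2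
      rw [mul_assoc, Equiv.swap_mul_self, mul_one] at h3
      constructor
      · apply mal_le hq n _ π
        · linarith [h1.1]
        · linarith [h2.1]
      · apply mal_le hq n _ π
        · linarith [h1.2]
        · linarith [h3.2])
    l (fun i => ⟨pz (u i) (a i), hp i⟩) (fun i => ⟨a i, ha i⟩)
    (fun i => seg n (cz (u i) S h (a i)) (cz (u i) S h (a i) + h))
    (fun i => seg n (a i + 1) (a i + 1 + h))
    (by
      intro i i' hi
      by_contra hne
      exact pz_ne hF hu hf i i' hne (by simpa using hi))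
    (by
      intro i i' hi
      by_contra hne
      have h0 : a i = a i' := by simpa using hi
      rcases lt_or_gt_of_ne hne with h' | h'
      · have := hF.e1 i i' h'
        omega
      · have := hF.e1 i' i h'
        omega)
    (fun i i' hi => seg_disj (cz_dis hF hu hf i i' hi))
    (fun i i' hi => seg_disj (by
      rcases lt_or_gt_of_ne hi with h' | h'
      · have := hF.e1 i i' h'
        omega
      · have := hF.e1 i' i h'
        omega))
    (fun i i' => by
      rw [mem_seg]
      have := pz_cz hF hu i i'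
      show ¬ (cz (u i') S h (a i') ≤ pz (u i) (a i) ∧ pz (u i) (a i) < cz (u i') S h (a i') + h)
      omega)
    (fun i i' => by
      rw [mem_seg]
      show ¬ (a i' + 1 ≤ a i ∧ a i < a i' + 1 + h)
      rcases lt_trichotomy i i' with h' | rfl | h'
      · have := hF.e1 i i' h'
        omega
      · omega
      · have := hF.e1 i' i h'
        omega)
    (fun i x hx => by
      rw [mem_seg] at hx
      have := cz_near hF hu i
      rw [abs_le]
      show -(((S + (S + 1) * h : ℕ)) : ℤ) ≤ (x.val : ℤ) - (pz (u i) (a i) : ℕ) ∧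
        (x.val : ℤ) - (pz (u i) (a i) : ℕ) ≤ ((S + (S + 1) * h : ℕ))
      generalize (S + 1) * h = M at *
      omega)
    (fun i x hx => by
      rw [mem_seg] at hx
      have h5 : (S + 1) * h = S * h + h := Nat.succ_mul S h
      rw [abs_le]
      show -(((S + (S + 1) * h : ℕ)) : ℤ) ≤ (x.val : ℤ) - (a i : ℕ) ∧
        (x.val : ℤ) - (a i : ℕ) ≤ ((S + (S + 1) * h : ℕ))
      rw [h5]
      generalize S * h = M at *
      omega)
  have hcard : (∏ i : Fin l, (((seg n (cz (u i) S h (a i)) (cz (u i) S h (a i) + h)).card : ℝ) *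
      ((seg n (a i + 1) (a i + 1 + h)).card : ℝ))) = ((h : ℝ) * h) ^ l := by
    have : ∀ i : Fin l, (((seg n (cz (u i) S h (a i)) (cz (u i) S h (a i) + h)).card : ℝ) *
      ((seg n (a i + 1) (a i + 1 + h)).card : ℝ)) = (h : ℝ) * h := fun i => by
      rw [card_seg (cz_le hF hu i), card_seg]
      have := hF.e3 i
      omega
    rw [Finset.prod_congr rfl fun i _ => this i, Finset.prod_const, Finset.card_univ,
      Fintype.card_fin]
  rw [hcard, ← hev] at key
  exact key

end Pool.Agent.K3h36.FF
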