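import Pool.Agent.K3h36.FF.MLIMa

/-!
# MLIM, part 2: analytic lemmas
-/

set_option autoImplicit false

open MeasureTheory Filter Topology ProbabilityTheory Set

namespace Pool.Agent.K3h36.FF

open Pool.Agent.K3h5.FF

theorem sq2 (y : ℕ → ℝ) (L : ℝ) (A B : ℝ → ℝ) (hA : Tendsto A (𝓝[>] 0) (𝓝 L))
    (hB : Tendsto B (𝓝[>] 0) (𝓝 L))
    (h : ∀ᶠ ε in 𝓝[>] (0 : ℝ), ∃ a b : ℕ → ℝ, Tendsto a atTop (𝓝 (A ε)) ∧
      Tendsto b atTop (𝓝 (B ε)) ∧ ∀ᶠ n in atTop, b n ≤ y n ∧ y n ≤ a n) :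
    Tendsto y atTop (𝓝 L) := by
  rw [tendsto_order]
  constructor
  · intro c hc
    obtain ⟨ε, h1, a, b, ha, hb, hn⟩ := ((hB.eventually (lt_mem_nhds hc)).and h).exists
    filter_upwards [hn, hb.eventually (lt_mem_nhds h1)] with n hn1 hn2
    exact lt_of_lt_of_le hn2 hn1.1
  · intro c hc
    obtain ⟨ε, h1, a, b, ha, hb, hn⟩ := ((hA.eventually (gt_mem_nhds hc)).and h).exists
    filter_upwards [hn, ha.eventually (gt_mem_nhds h1)] with n hn1 hn2
    exact lt_of_le_of_lt hn1.2 hn2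

theorem evpos (f : ℕ → ℝ) (c : ℝ) (hf : Tendsto (fun n : ℕ => f n / n) atTop (𝓝 c))
    (hc : 0 < c) : ∀ᶠ n in atTop, 0 < f n := by
  filter_upwards [hf.eventually (lt_mem_nhds hc), eventually_gt_atTop 0] with n h1 h2
  have h3 : (0 : ℝ) < n := by exact_mod_cast h2
  by_contra h4
  have : f n / n ≤ 0 := div_nonpos_of_nonpos_of_nonneg (not_lt.1 h4) h3.le
  linarith

/-- clamp to `[0, 1]` -/
noncomputable def cl (s : ℝ) : ℝ := max 0 (min 1 s)

theorem cl_mem (s : ℝ) : cl s ∈ Icc (0 : ℝ) 1 :=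
  ⟨le_max_left _ _, max_le zero_le_one (min_le_left _ _)⟩

theorem cl_eq {s : ℝ} (h : s ∈ Icc (0 : ℝ) 1) : cl s = s := by
  unfold cl
  rw [min_eq_right h.2, max_eq_right h.1]

theorem cl_cont : Continuous cl := by
  unfold cl
  fun_prop

/-- the clamped density -/
noncomputable def Gd (β s r : ℝ) : ℝ := dens β (cl s) (cl r)

theorem Gd_cont (hGU : S_GU) (β : ℝ) : Continuous (fun z : ℝ × ℝ => Gd β z.1 z.2) := by
  have h := (hGU β).2.2.2.2.2.1
  have h2 : Continuous (fun z : ℝ × ℝ => (cl z.1, cl z.2)) :=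
    (cl_cont.comp continuous_fst).prodMk (cl_cont.comp continuous_snd)
  exact h.comp_continuous h2 fun z => ⟨cl_mem z.1, cl_mem z.2⟩

/-- the average over a box -/
noncomputable def Ph (β : ℝ) (ξ : ℝ → ℝ) (x ε : ℝ) : ℝ :=
  ∫ s in (0 : ℝ)..1, ∫ r in (0 : ℝ)..1, Gd β (ξ ε + ε * s) (x + ε * r)

theorem Ph_cont (hGU : S_GU) (β : ℝ) (ξ : ℝ → ℝ) (hξ : Continuous ξ) (x : ℝ) :
    Continuous (Ph β ξ x) := by
  have hG := Gd_cont hGU β
  unfold Ph
  apply intervalIntegral.continuous_parametric_intervalIntegral_of_continuous'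
  have h1 : Continuous (Function.uncurry fun (z : ℝ × ℝ) (r : ℝ) =>
      Gd β (ξ z.1 + z.1 * z.2) (x + z.1 * r)) := by
    have h2 : Continuous (fun w : (ℝ × ℝ) × ℝ => (ξ w.1.1 + w.1.1 * w.1.2, x + w.1.1 * w.2)) := by
      fun_prop
    exact hG.comp h2
  exact intervalIntegral.continuous_parametric_intervalIntegral_of_continuous' h1 0 1

theorem Ph_zero (β : ℝ) (ξ : ℝ → ℝ) (x : ℝ) (hξ : ξ 0 ∈ Icc (0 : ℝ) 1) (hx : x ∈ Icc (0 : ℝ) 1) :
    Ph β ξ x 0 = dens β (ξ 0) x := by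
  unfold Ph Gd
  simp [cl_eq hξ, cl_eq hx]

theorem box_eq (β : ℝ) (ξ : ℝ → ℝ) (x ε : ℝ) (hε : 0 ≤ ε) (h1 : 0 ≤ ξ ε) (h2 : ξ ε + ε ≤ 1)
    (h3 : 0 ≤ x) (h4 : x + ε ≤ 1) :
    (∫ s in (ξ ε)..(ξ ε + ε), ∫ r in x..(x + ε), dens β s r) = ε ^ 2 * Ph β ξ x ε := by
  have hin : ∀ s : ℝ, (∫ r in x..(x + ε), Gd β s r) =
      ε * ∫ r in (0 : ℝ)..1, Gd β s (x + ε * r) := fun s => by
    have := intervalIntegral.smul_integral_comp_add_mul (a := 0) (b := 1) (Gd β s) ε x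
    rw [mul_zero, add_zero, mul_one, smul_eq_mul] at this
    exact this.symm
  have hout : (∫ s in (ξ ε)..(ξ ε + ε), ∫ r in x..(x + ε), dens β s r) =
      ∫ s in (ξ ε)..(ξ ε + ε), ∫ r in x..(x + ε), Gd β s r := by
    apply intervalIntegral.integral_congr
    intro s hs
    rw [uIcc_of_le (by linarith)] at hs
    apply intervalIntegral.integral_congr
    intro r hr
    rw [uIcc_of_le (by linarith)] at hr
    unfold Gd
    show dens β s r = dens β (cl s) (cl r)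
    rw [cl_eq ⟨by linarith [hs.1], by linarith [hs.2]⟩,
      cl_eq ⟨by linarith [hr.1], by linarith [hr.2]⟩]
  rw [hout]
  have h5 := intervalIntegral.smul_integral_comp_add_mul (a := 0) (b := 1)
    (fun s => ∫ r in x..(x + ε), Gd β s r) ε (ξ ε)
  rw [mul_zero, add_zero, mul_one, smul_eq_mul] at h5
  rw [← h5]
  simp only [hin]
  rw [intervalIntegral.integral_const_mul]
  unfold Ph
  ring

theorem max_exp {q : ℝ} (hq : 0 < q) : max q q⁻¹ = Real.exp |Real.log q| := by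
  rcases le_or_gt 1 q with h | h
  · have h1 : q⁻¹ ≤ q := (inv_le_one_of_one_le₀ h).trans h
    rw [max_eq_left h1, abs_of_nonneg (Real.log_nonneg h), Real.exp_log hq]
  · have h1 : q ≤ q⁻¹ := h.le.trans ((one_le_inv₀ hq).2 h.le)
    rw [max_eq_right h1, abs_of_nonpos (Real.log_nonpos hq.le h.le), Real.exp_neg,
      Real.exp_log hq]

theorem K_eq {q : ℝ} (hq : 0 < q) (n D l : ℕ) (hn : 0 < n) :
    ((max q q⁻¹) ^ (2 * D)) ^ (2 * l) =
      Real.exp (4 * l * (((D : ℝ) / n) * |(n : ℝ) * Real.log q|)) := by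
  have hn' : (0 : ℝ) < n := by exact_mod_cast hn
  rw [max_exp hq, ← Real.exp_nat_mul, ← Real.exp_nat_mul, abs_mul, abs_of_pos hn']
  congr 1
  push_cast
  field_simp
  ring

end Pool.Agent.K3h36.FF
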